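import Pool.Agent.SZT.StmtsA

/-!
Row AOT of squad SZT.
-/

set_option autoImplicit false

namespace Pool.Agent.SZT.H90

open Polynomial
open Pool.Agent.MNT (QU vC)
open scoped Classical

theorem le_rho {L : Type} [Field L] (v : L → ℝ) (θ : Fin 5 → L) (k l : Fin 5) :
    v (θ k - θ l) ≤ rho v θ :=
  le_ciSup (f := fun p : Fin 5 × Fin 5 => v (θ p.1 - θ p.2))
    (Set.finite_range _).bddAbove (k, l)

theorem rho_pos {L : Type} [Field L] (v : AbsoluteValue L ℝ) (θ : Fin 5 → L)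
    (h : Function.Injective θ) : 0 < rho v θ := by
  refine lt_of_lt_of_le (v.pos (x := θ 0 - θ 1) ?_) (le_rho v θ 0 1)
  rw [sub_ne_zero]
  intro e
  exact absurd (h e) (by decide)

theorem inv_le_one {N : ℕ} (hN : 1 ≤ N) : 0 ≤ 1 / (N : ℝ) ∧ 1 / (N : ℝ) ≤ 1 := by
  have h : (1 : ℝ) ≤ N := by exact_mod_cast hN
  exact ⟨by positivity, by rw [div_le_one (by linarith)]; exact h⟩

theorem aot (hC : CmbStmt) (hT : TrfStmt) (hN : OknStmt) (hA : OkaStmt) : AotStmt := by
  refine ⟨2, 8 * Real.log 2 + 2 * Real.log 128, by norm_num, ?_, ?_, ?_⟩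
  · have h1 : 0 ≤ Real.log 2 := Real.log_nonneg (by norm_num)
    have h2 : 0 ≤ Real.log 128 := Real.log_nonneg (by norm_num)
    linarith
  · intro L _ v θ A U W M hna h2 hinj hmon hdeg hAs hUs hcop hM hMe heq
    obtain ⟨a, N, -, hsol, hne, hLv⟩ := hT L v θ A U W M h2 hmon hdeg hAs hcop hM hMe heq
    have hg := hN L v hna θ a N U W hinj hUs hsol
    have hQ : QU v 0 := by
      refine ⟨le_rfl, fun a b => ?_⟩
      rw [Real.exp_zero, one_mul]
      exact hna a b
    have h3 := hC L v 0 0 hQ le_rfl θ a N U W hinj hUs hsol hg hne (rho v θ) (rho_pos v θ hinj)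
      (le_rho v θ)
    rw [hLv]
    have hv2 : Real.log (v 2) ≤ 0 := by
      apply Real.log_nonpos (v.nonneg _)
      have h4 := hna 1 1
      rw [map_one, max_self] at h4
      have e : (1 : L) + 1 = 2 := by norm_num
      rwa [e] at h4
    obtain ⟨h5, -⟩ := inv_le_one hsol.pos
    have h6 : 1 / (N : ℝ) * Real.log (v 2) ≤ 0 := mul_nonpos_of_nonneg_of_nonpos h5 hv2
    have e : (2 - 1 / (N : ℝ)) * Real.log (v 2)
        = 2 * Real.log (v 2) - 1 / (N : ℝ) * Real.log (v 2) := by ring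
    rw [e]
    linarith
  · intro θ A U W M hinj hmon hdeg hcop hM hMe heq
    obtain ⟨a, N, -, hsol, hne, hLv⟩ := hT ℂ vC θ A U W M (by norm_num) hmon hdeg
      (IsAlgClosed.splits A) hcop hM hMe heq
    have hg := hA θ a N U W hinj hsol
    have hQ : QU vC (Real.log 2) := by
      refine ⟨Real.log_nonneg (by norm_num), fun a b => ?_⟩
      rw [Real.exp_log (by norm_num)]
      show ‖a + b‖ ≤ 2 * max ‖a‖ ‖b‖
      have h1 := norm_add_le a b
      have h2 := le_max_left ‖a‖ ‖b‖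
      have h3 := le_max_right ‖a‖ ‖b‖
      linarith
    have h128 : 0 ≤ 2 * Real.log 128 := mul_nonneg (by norm_num) (Real.log_nonneg (by norm_num))
    have h3 := hC ℂ vC (Real.log 2) (2 * Real.log 128) hQ h128 θ a N U W hinj
      (IsAlgClosed.splits U) hsol hg hne (rho vC θ) (rho_pos vC θ hinj) (le_rho vC θ)
    have h4 : Lv (fun z : ℂ => ‖z‖) (∏ i, (X - C (θ i))) A U M
        = Lv vC (∏ i, (X - C (θ i))) A U M := rfl
    have h5 : rho (fun z : ℂ => ‖z‖) θ = rho vC θ := rfl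
    have h6 : ‖dsc θ‖ = vC (dsc θ) := rfl
    rw [h4, h5, h6, hLv]
    have hv2 : vC 2 = 2 := by
      show ‖(2 : ℂ)‖ = 2
      simp
    obtain ⟨-, h7⟩ := inv_le_one hsol.pos
    have h8 : 0 ≤ (2 - 1 / (N : ℝ)) * Real.log (vC 2) := by
      apply mul_nonneg
      · linarith
      · rw [hv2]
        exact Real.log_nonneg (by norm_num)
    linarith

end Pool.Agent.SZT.H90
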